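import Pool.Agent.X305.FM.Defs

/-!
# A gap theorem for the Tate conjecture. Definitions
-/

set_option autoImplicit false

open CategoryTheory AlgebraicGeometry

universe u v

namespace Pool.Agent.X305.GP

open Pool.Agent.H914 VarClass Obj WeilCohomology Pool.Agent.X305.PI Pool.Agent.X305.TQ
  Pool.Agent.X305.HA

variable {k : Type u} [Field k] {𝒱 : VarClass k} {ops : CycleOps 𝒱}
  (W : WeilCohomology.{u, v} ops) (X : 𝒱.Obj) (f : X ⟶ X) (q n r : ℕ)

/-- The endomorphism `f × f` of `X × X`. -/
noncomputable def square : X.prod X ⟶ X.prod X := Obj.lift (fst X X ≫ f) (snd X X ≫ f)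

/-- `z` is a Frobenius cycle of codimension `n` on `X`: its class is multiplied by `q ^ n` by
`f^*`. For the Frobenius endomorphism `f` of a variety over the field with `q` elements the cycles
defined over this field have this property. -/
def IsFrobCycle (z : X.Cycles) : Prop := X.IsCyc n z ∧ Scales (W.map f) (q ^ n : ℕ) (W.cl X z)

/-- The Tate conjecture for `X` in codimension `n`: the elements of `H^(2 n) (X)` which `f^*`
multiplies by `q ^ n` are linear combinations of classes of Frobenius cycles of codimension `n`. -/
def TateFor : Prop :=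
  EigenIn (pull W X f) ((q ^ n : ℕ) : W.K) (W.gr X (2 * n))
    (Submodule.span W.K {c | ∃ z, IsFrobCycle W X f q n z ∧ W.cl X z = c})

/-- The rank of the intersection pairing on the Frobenius cycles of codimension `n` on `X`, where
`dim X = 2 n`, is at least `r`: for some Frobenius cycles `z i`, `w j`, `i, j < r`, the matrix of the
intersection numbers `z i · w j` is invertible. -/
def InterRankAtLeast : Prop :=
  ∃ z w : Fin r → X.Cycles, (∀ i, IsFrobCycle W X f q n (z i) ∧ IsFrobCycle W X f q n (w i)) ∧
    (Matrix.of fun i j => X.V.degCycle (ops.mul (z i) (w j))).det ≠ 0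

/-- Frobenius cycles of codimension `n` on `X` which are numerically equivalent to zero have
class zero. -/
def NumEqHomFor : Prop := ∀ z, IsFrobCycle W X f q n z → NumZero ops X n z → W.cl X z = 0

/-- The multiplicity of the eigenvalue `a` of `f^*` on the whole cohomology `H (X)`, as a root of the
characteristic polynomial. -/
noncomputable def frobMultOf (a : W.K) : ℕ :=
  (LinearMap.charpoly (pull W X f)).rootMultiplicity a

/-- The sum of the squares of the multiplicities of the eigenvalues of `f^*` on the whole
cohomology `H (X)`. -/
noncomputable def frobSquares : ℕ := ∑ᶠ a : W.K, frobMultOf W X f a ^ 2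

/-- The condition on the number `d = frobSquares W X f - r` of missing classes: each eigenvalue `a`
of `f^*` on `H (X)` is simple, or its multiplicity `m` satisfies `d < 2 (m - 1)`, or it satisfies
`a ^ 2 ≠ q ^ dim X` and `d < 4 (m - 1)`. -/
def FewMissing : Prop :=
  ∀ a : W.K, frobMultOf W X f a ≤ 1 ∨ frobSquares W X f + 2 < r + 2 * frobMultOf W X f a ∨
    (a * a ≠ ((q ^ X.dim : ℕ) : W.K) ∧ frobSquares W X f + 4 < r + 4 * frobMultOf W X f a)

end Pool.Agent.X305.GP
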