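import Pool.Agent.X305.GP.Gap

/-!
# The full commutant
-/

set_option autoImplicit false

namespace Pool.Agent.X305.GP

open Module Pool.Agent.X305.FM

variable {K V : Type*} [Field K] [AddCommGroup V] [Module K V] [FiniteDimensional K V]
  {S : Set (Module.End K V)} {F P : Module.End K V} {B : V →ₗ[K] V →ₗ[K] K} {c : K} {r : ℕ}

lemma ext_gen [IsAlgClosed K] {T U : Module.End K V} (h : ∀ a, ∀ x ∈ gen F a, T x = U x) :
    T = U := by
  ext x
  have hx : x ∈ (⨆ a : K, gen F a) := by
    rw [Module.End.iSup_maxGenEigenspace_eq_top F]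
    exact Submodule.mem_top
  induction hx using Submodule.iSup_induction' with
  | mem a y hy => exact h a y hy
  | zero => rw [map_zero, map_zero]
  | add y z _ _ hy hz => rw [map_add, map_add, hy, hz]

/-- the projections to the generalised eigenspaces -/
lemma exists_proj [IsAlgClosed K] (F : Module.End K V) (a : K) : ∃ p : V →ₗ[K] gen F a,
    (∀ x (hx : x ∈ gen F a), p x = ⟨x, hx⟩) ∧ ∀ b, b ≠ a → ∀ x ∈ gen F b, p x = 0 := by
  have hdis := F.independent_maxGenEigenspace a
  have hc : IsCompl (gen F a) (⨆ (b) (_ : b ≠ a), gen F b) := by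
    refine ⟨hdis, ?_⟩
    rw [codisjoint_iff, eq_top_iff, ← Module.End.iSup_maxGenEigenspace_eq_top F, iSup_le_iff]
    intro b
    rcases eq_or_ne b a with rfl | hb
    · exact le_sup_left
    · exact (le_iSup₂_of_le (f := fun b (_ : b ≠ a) => gen F b) b hb le_rfl).trans le_sup_right
  refine ⟨Submodule.projectionOnto _ _ hc, fun x hx => ?_, fun b hb x hx => ?_⟩
  · exact Submodule.projectionOnto_apply_left hc ⟨x, hx⟩
  · apply Submodule.projectionOnto_apply_of_mem_right
    exact (le_iSup₂_of_le (f := fun b (_ : b ≠ a) => gen F b) b hb le_rfl) hx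

/-- **Nondegeneracy of the trace form on the commutant.** -/
theorem eq_zero_of_traces [IsAlgClosed K] (h : IsOps S F P B c) (h1 : 1 ∈ S)
    (hmul : ∀ s ∈ S, ∀ t ∈ S, s * t ∈ S) (hF : F ∈ S) (hs : ∀ a, SimpleAt S F a)
    {T : Module.End K V} (hT : Commute T F)
    (h0 : ∀ s ∈ S, LinearMap.trace K V (P * T * s) = 0) : T = 0 := by
  refine ext_gen (F := F) fun a x hx => ?_
  rw [LinearMap.zero_apply]
  by_contra hy
  have hyg : T x ∈ gen F a := mapsTo hT a x hx
  obtain ⟨p, hp1, hp2⟩ := exists_proj F a
  obtain ⟨lam, hlam⟩ : ∃ lam : Dual K (gen F a), lam ⟨T x, hyg⟩ ≠ 0 := by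
    by_contra hcon
    push Not at hcon
    exact hy (congrArg Subtype.val ((Module.forall_dual_apply_eq_zero_iff K _).1 hcon))
  have hnil : ∀ b, ∀ z ∈ gen F b, F z = b • z := by
    intro b z hz
    have h2 := congrArg Subtype.val (LinearMap.congr_fun (nil_of_simpleAt (hs b) h.comm) ⟨z, hz⟩)
    rw [nil_apply, LinearMap.zero_apply, ZeroMemClass.coe_zero] at h2
    exact sub_eq_zero.1 h2
  let U : Module.End K V := (lam.comp p).smulRight x
  have hU : ∀ z, U z = lam (p z) • x := fun z => rfl
  have hUF : Commute U F := by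
    refine ext_gen (F := F) fun b z hz => ?_
    rw [Module.End.mul_apply, Module.End.mul_apply, hnil b z hz, map_smul]
    rcases eq_or_ne b a with rfl | hb
    · rw [hU, map_smul, hnil b x hx, smul_comm]
    · rw [hU, hp2 b hb z hz, map_zero, zero_smul, smul_zero, map_zero]
  have hUS := mem_span_of_simpleAt h1 hmul hF h.comm hs hUF
  have htr : LinearMap.trace K V (P * T * U) = 0 := by
    refine Submodule.span_induction (p := fun U _ => LinearMap.trace K V (P * T * U) = 0)
      ?_ ?_ ?_ ?_ hUS
    · exact fun s hs => h0 s hs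
    · rw [mul_zero, map_zero]
    · intro U U' _ _ h2 h3
      rw [mul_add, map_add, h2, h3, add_zero]
    · intro e U _ h2
      rw [mul_smul_comm, map_smul, h2, smul_zero]
  -- the parity is a nonzero scalar
  obtain ⟨e, he⟩ := apply_of_simpleAt (φ := P) (hs a) h.comm h.commP (mapsTo h.parF a)
  have he0 : e ≠ 0 := by
    rintro rfl
    have h2 := LinearMap.congr_fun h.sq (T x)
    rw [Module.End.mul_apply, he _ hyg, zero_smul, map_zero, Module.End.one_apply] at h2
    exact hy h2.symm
  have h3 : P * T * U = (lam.comp p).smulRight (P (T x)) := by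
    ext z
    rw [Module.End.mul_apply, Module.End.mul_apply, hU, map_smul, map_smul]
    rfl
  rw [h3, LinearMap.trace_smulRight, he _ hyg, map_smul, smul_eq_mul, LinearMap.comp_apply,
    hp1 _ hyg] at htr
  exact hlam ((mul_eq_zero.1 htr).resolve_left he0)

/-- the dimension of the commutant -/
lemma sumSq_le_finrank [IsAlgClosed K] (h : IsOps S F P B c) (h1 : 1 ∈ S)
    (hmul : ∀ s ∈ S, ∀ t ∈ S, s * t ∈ S) (hF : F ∈ S) (hs : ∀ a, SimpleAt S F a) :
    sumSq F ≤ finrank K (Submodule.span K S) := by
  classical
  have hnil : ∀ b, ∀ z ∈ gen F b, F z = b • z := by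
    intro b z hz
    have h2 := congrArg Subtype.val (LinearMap.congr_fun (nil_of_simpleAt (hs b) h.comm) ⟨z, hz⟩)
    rw [nil_apply, LinearMap.zero_apply, ZeroMemClass.coe_zero] at h2
    exact sub_eq_zero.1 h2
  choose p hp1 hp2 using exists_proj F
  let ι := {a : K // a ∈ F.charpoly.roots.toFinset}
  let Ψ : ((a : ι) → Module.End K (gen F (a : K))) →ₗ[K] Module.End K V :=
    ∑ a : ι, ((LinearMap.lcomp K V (p (a : K))).comp
      (LinearMap.llcomp K (gen F (a : K)) (gen F (a : K)) V (gen F (a : K)).subtype)).comp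
        (LinearMap.proj a)
  have hΨ : ∀ g x, Ψ g x = ∑ a : ι, (g a (p (a : K) x) : V) := by
    intro g x
    simp only [Ψ, LinearMap.sum_apply]
    rfl
  have hΨ2 : ∀ g (b : ι) x (hx : x ∈ gen F (b : K)), Ψ g x = (g b ⟨x, hx⟩ : V) := by
    intro g b x hx
    rw [hΨ, Finset.sum_eq_single b]
    · rw [hp1 _ x hx]
    · intro a _ hab
      rw [hp2 (a : K) (b : K) (fun h => hab (Subtype.ext h.symm)) x hx, map_zero,
        ZeroMemClass.coe_zero]
    · intro hb
      exact absurd (Finset.mem_univ b) hb
  have hgen0 : ∀ b : K, b ∉ F.charpoly.roots.toFinset → gen F b = ⊥ := by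
    intro b hb
    rw [← Submodule.finrank_eq_zero, finrank_gen]
    rw [Multiset.mem_toFinset, Polynomial.mem_roots (LinearMap.charpoly_monic F).ne_zero] at hb
    exact Polynomial.rootMultiplicity_eq_zero hb
  have hcomm : ∀ g, Commute (Ψ g) F := by
    intro g
    refine ext_gen (F := F) fun b z hz => ?_
    rw [Module.End.mul_apply, Module.End.mul_apply, hnil b z hz, map_smul]
    by_cases hb : b ∈ F.charpoly.roots.toFinset
    · rw [hΨ2 g ⟨b, hb⟩ z hz, hnil b _ (g ⟨b, hb⟩ ⟨z, hz⟩).2]
    · rw [hgen0 b hb, Submodule.mem_bot] at hz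
      rw [hz, map_zero, map_zero, smul_zero]
  have hinj : Function.Injective Ψ := by
    rw [← LinearMap.ker_eq_bot, LinearMap.ker_eq_bot']
    intro g hg
    funext b
    ext x
    have h2 := hΨ2 g b x x.2
    rw [hg, LinearMap.zero_apply] at h2
    exact h2.symm
  have hran : LinearMap.range Ψ ≤ Submodule.span K S := by
    rintro _ ⟨g, rfl⟩
    exact mem_span_of_simpleAt h1 hmul hF h.comm hs (hcomm g)
  have h2 := Submodule.finrank_mono hran
  rw [LinearMap.finrank_range_of_inj hinj, Module.finrank_pi_fintype] at h2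
  rw [sumSq_eq, ← Finset.sum_coe_sort]
  refine le_trans (le_of_eq ?_) h2
  refine Finset.sum_congr rfl fun a _ => ?_
  rw [Module.finrank_linearMap, finrank_gen, pow_two]

/-- **The rank is as large as possible.** -/
theorem full_rank [IsAlgClosed K] (h : IsOps S F P B c) (h1 : 1 ∈ S)
    (hmul : ∀ s ∈ S, ∀ t ∈ S, s * t ∈ S) (hF : F ∈ S) (hs : ∀ a, SimpleAt S F a) :
    SuperRank S P (sumSq F) := by
  classical
  obtain ⟨b, hbS, hspan, hli⟩ := exists_linearIndependent K S
  have hfin : b.Finite := hli.setFinite
  have hft : Fintype b := hfin.fintype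
  have hcard : Fintype.card b = finrank K (Submodule.span K S) := by
    rw [← hspan]
    have := finrank_span_eq_card hli
    rw [Subtype.range_coe] at this
    exact this.symm
  -- the matrix
  have key : SuperRank S P (Fintype.card b) := by
    let e := Fintype.equivFin b
    let u : Fin (Fintype.card b) → Module.End K V := fun i => (e.symm i : Module.End K V)
    have hli' : LinearIndependent K u := hli.comp _ e.symm.injective
    have hu : ∀ i, u i ∈ S := fun i => hbS (e.symm i).2
    refine ⟨u, u, fun i => ⟨hu i, hu i⟩, ?_⟩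
    intro hdet
    obtain ⟨w, hw0, hw⟩ := Matrix.exists_vecMul_eq_zero_iff.2 hdet
    apply hw0
    have hT0 : ∑ i, w i • u i = 0 := by
      refine eq_zero_of_traces h h1 hmul hF hs ?_ ?_
      · have : ∀ s : Finset (Fin (Fintype.card b)), Commute (∑ i ∈ s, w i • u i) F := by
          intro s
          induction s using Finset.induction_on with
          | empty => rw [Finset.sum_empty]; exact Commute.zero_left _
          | insert i s hi ih =>
            rw [Finset.sum_insert hi]
            exact ((h.comm _ (hu i)).smul_left _).add_left ih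
        exact this _
      · intro s hsS
        have hsspan : s ∈ Submodule.span K (b : Set (Module.End K V)) := by
          rw [hspan]
          exact Submodule.subset_span hsS
        refine Submodule.span_induction (p := fun s _ =>
          LinearMap.trace K V (P * (∑ i, w i • u i) * s) = 0) ?_ ?_ ?_ ?_ hsspan
        · intro t ht
          have h2 := congrFun hw (e ⟨t, ht⟩)
          have h3 : u (e ⟨t, ht⟩) = t := by
            simp only [u, Equiv.symm_apply_apply]
          rw [Pi.zero_apply, Matrix.vecMul, dotProduct] at h2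
          rw [Finset.mul_sum, Finset.sum_mul, map_sum, ← h2]
          refine Finset.sum_congr rfl fun i _ => ?_
          rw [mul_smul_comm, smul_mul_assoc, map_smul, smul_eq_mul]
          rw [trMat, Matrix.of_apply, h3]
        · rw [mul_zero, map_zero]
        · intro U U' _ _ h2 h3
          rw [mul_add, map_add, h2, h3, add_zero]
        · intro e U _ h2
          rw [mul_smul_comm, map_smul, h2, smul_zero]
    funext i
    exact Fintype.linearIndependent_iff.1 hli' w hT0 i
  -- the size
  have hle : Fintype.card b ≤ sumSq F := by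
    obtain ⟨u, v, huv, hdet⟩ := key
    exact rank_le_sumSq F (IsAlgClosed.splits _) _ v (fun i => commute_mul h (huv i).1)
      (fun i => h.comm _ (huv i).2) hdet
  have hge := sumSq_le_finrank h h1 hmul hF hs
  have heq : Fintype.card b = sumSq F := by omega
  rw [← heq]
  exact key

end Pool.Agent.X305.GP
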