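import Pool.Agent.X305.GP.Simple

/-!
# Irreducibility when few operators are missing
-/

set_option autoImplicit false

namespace Pool.Agent.X305.GP

open Module Pool.Agent.X305.FM

variable {K V : Type*} [Field K] [AddCommGroup V] [Module K V] [FiniteDimensional K V]

/-- A set `S` of operators which commute with `F` and with the involution `P`, closed under
adjoints for the form `B`. -/
structure IsOps (S : Set (Module.End K V)) (F P : Module.End K V) (B : V →ₗ[K] V →ₗ[K] K)
    (c : K) : Prop where
  comm : ∀ s ∈ S, Commute s F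
  commP : ∀ s ∈ S, Commute s P
  parF : Commute P F
  sq : P * P = 1
  adj : ∀ s ∈ S, ∃ t ∈ S, ∀ x y, B (t x) y = B x (s y)
  adjP : ∀ x y, B (P x) y = B x (P y)
  scale : ∀ x y, B (F x) (F y) = c * B x y
  nondeg : ∀ x, (∀ y, B x y = 0) → x = 0
  ne_zero : c ≠ 0

/-- an invertible matrix of supertraces of size `r` -/
def SuperRank (S : Set (Module.End K V)) (P : Module.End K V) (r : ℕ) : Prop :=
  ∃ u v : Fin r → Module.End K V, (∀ i, u i ∈ S ∧ v i ∈ S) ∧
    (trMat (fun i => P * u i) v).det ≠ 0

/-- the condition on the number `sumSq F - r` of missing operators -/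
def SmallAt (F : Module.End K V) (c : K) (r : ℕ) (a : K) : Prop :=
  mult F a ≤ 1 ∨ sumSq F + 2 < r + 2 * mult F a ∨ (a * a ≠ c ∧ sumSq F + 4 < r + 4 * mult F a)

variable {S : Set (Module.End K V)} {F P : Module.End K V} {B : V →ₗ[K] V →ₗ[K] K} {c : K} {r : ℕ}

/-- the orthogonal space of `U` in a generalised eigenspace -/
def perp (F : Module.End K V) (B : V →ₗ[K] V →ₗ[K] K) (U : Submodule K V) (b : K) :
    Submodule K V where
  carrier := {y | y ∈ gen F b ∧ ∀ x ∈ U, B x y = 0}
  add_mem' := fun {y z} hy hz => ⟨(gen F b).add_mem hy.1 hz.1, fun x hx => by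
    rw [map_add, hy.2 x hx, hz.2 x hx, add_zero]⟩
  zero_mem' := ⟨(gen F b).zero_mem, fun x _ => map_zero _⟩
  smul_mem' := fun a y hy => ⟨(gen F b).smul_mem a hy.1, fun x hx => by
    rw [map_smul, hy.2 x hx, smul_zero]⟩

lemma commute_mul (h : IsOps S F P B c) {s : Module.End K V} (hs : s ∈ S) : Commute (P * s) F :=
  h.parF.mul_left (h.comm s hs)

/-- the bound for one eigenvalue -/
lemma loc_bound (h : IsOps S F P B c) {a : K} {U : Submodule K V} (hU : U ≤ gen F a)
    (hUS : ∀ s ∈ S, ∀ x ∈ U, s x ∈ U) (hUP : ∀ x ∈ U, P x ∈ U) (h0 : U ≠ ⊥) (h1 : U ≠ gen F a)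
    {u v : Fin r → Module.End K V} (hu : ∀ i, u i ∈ S) (hv : ∀ i, v i ∈ S) :
    (locMat (u := fun i => P * u i) (v := v) (fun i => commute_mul h (hu i))
      (fun i => h.comm _ (hv i)) a).rank + 2 * mult F a ≤ mult F a ^ 2 + 2 := by
  rw [← finrank_gen]
  refine rank_trMat_gap (U := U.comap (gen F a).subtype) ?_ ?_ _ _ ?_ ?_
  · intro hcon
    apply h0
    rw [eq_bot_iff]
    intro x hx
    have h2 : (⟨x, hU hx⟩ : gen F a) ∈ U.comap (gen F a).subtype := hx
    rw [hcon, Submodule.mem_bot] at h2
    rw [Submodule.mem_bot]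
    exact congrArg Subtype.val h2
  · intro hcon
    apply h1
    refine le_antisymm hU fun x hx => ?_
    have h2 : (⟨x, hx⟩ : gen F a) ∈ U.comap (gen F a).subtype := by
      rw [hcon]
      exact Submodule.mem_top
    exact h2
  · exact fun i x hx => hUP _ (hUS _ (hu i) _ hx)
  · exact fun i x hx => hUS _ (hv i) _ hx

/-- a proper stable subspace of a generalised eigenspace -/
structure IsSub (S : Set (Module.End K V)) (F P : Module.End K V) (U : Submodule K V) (a : K) :
    Prop where
  le : U ≤ gen F a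
  stable : ∀ s ∈ S, ∀ x ∈ U, s x ∈ U
  stableP : ∀ x ∈ U, P x ∈ U
  ne_bot : U ≠ ⊥
  ne_gen : U ≠ gen F a

lemma IsSub.mult_ne_zero {a : K} {U : Submodule K V} (hU : IsSub S F P U a) : mult F a ≠ 0 := by
  intro h
  rw [← finrank_gen] at h
  apply hU.ne_bot
  rw [eq_bot_iff, ← Submodule.finrank_eq_zero.1 h]
  exact hU.le

/-- the orthogonal space -/
lemma IsSub.perp [IsAlgClosed K] (h : IsOps S F P B c) {a b : K} {U : Submodule K V}
    (hU : IsSub S F P U a) (ha : a ≠ 0) (hab : a * b = c) : IsSub S F P (perp F B U b) b := by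
  have hsplit : F.charpoly.Splits := IsAlgClosed.splits _
  refine ⟨fun x hx => hx.1, ?_, ?_, ?_, ?_⟩
  · rintro s hs y ⟨hy1, hy2⟩
    refine ⟨mapsTo (h.comm s hs) b y hy1, fun x hx => ?_⟩
    obtain ⟨t, ht, htx⟩ := h.adj s hs
    rw [← htx]
    exact hy2 _ (hU.stable t ht x hx)
  · rintro y ⟨hy1, hy2⟩
    refine ⟨mapsTo h.parF b y hy1, fun x hx => ?_⟩
    rw [← h.adjP]
    exact hy2 _ (hU.stableP x hx)
  · -- otherwise the dimension is too small
    intro hbot
    let φ : gen F b →ₗ[K] Module.Dual K U :=
      (LinearMap.lcomp K K U.subtype).comp (B.flip.comp (gen F b).subtype)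
    have hφ : Function.Injective φ := by
      rw [← LinearMap.ker_eq_bot, LinearMap.ker_eq_bot']
      intro y hy
      apply Subtype.ext
      have h2 : (y : V) ∈ GP.perp F B U b :=
        ⟨y.2, fun x hx => LinearMap.congr_fun hy ⟨x, hx⟩⟩
      rw [hbot, Submodule.mem_bot] at h2
      exact h2
    have h3 := LinearMap.finrank_le_finrank_of_injective hφ
    rw [Subspace.dual_finrank_eq, finrank_gen] at h3
    have h4 := mult_le hsplit h.scale h.nondeg h.ne_zero hab
    rw [← finrank_gen F a] at h4
    exact hU.ne_gen (Submodule.eq_of_le_of_finrank_le hU.le (by omega))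
  · intro htop
    apply hU.ne_bot
    rw [eq_bot_iff]
    intro x hx
    rw [Submodule.mem_bot]
    refine eq_zero_of_orth hsplit h.scale h.nondeg ha hab (hU.le hx) fun y hy => ?_
    rw [← htop] at hy
    exact hy.2 x hx

/-- **The gap.** A stable subspace costs many operators. -/
theorem IsSub.bound [IsAlgClosed K] (h : IsOps S F P B c) {a : K} {U : Submodule K V}
    (hU : IsSub S F P U a) (hr : SuperRank S P r) :
    r + 2 * mult F a ≤ sumSq F + 2 ∧ (a * a ≠ c → r + 4 * mult F a ≤ sumSq F + 4) := by
  classical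
  obtain ⟨u, v, huv, hdet⟩ := hr
  have hsplit : F.charpoly.Splits := IsAlgClosed.splits _
  have hu : ∀ i, Commute (P * u i) F := fun i => commute_mul h (huv i).1
  have hv : ∀ i, Commute (v i) F := fun i => h.comm _ (huv i).2
  have hb : ∀ {a : K} {U : Submodule K V}, IsSub S F P U a →
      (locMat hu hv a).rank + (2 * mult F a - 2) ≤ mult F a ^ 2 := by
    intro a U hU
    have h1 := loc_bound h hU.le hU.stable hU.stableP hU.ne_bot hU.ne_gen
      (fun i => (huv i).1) (fun i => (huv i).2)
    have h2 := hU.mult_ne_zero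
    omega
  constructor
  · have h1 := rank_sum_bound F hsplit hu hv hdet {a} (by
      intro x hx
      rw [Finset.mem_singleton] at hx
      rw [hx]
      exact hU.mult_ne_zero) (fun a => 2 * mult F a - 2) (by
      intro x hx
      rw [Finset.mem_singleton] at hx
      rw [hx]
      exact hb hU)
    rw [Finset.sum_singleton] at h1
    omega
  · intro hac
    have ha0 : a ≠ 0 := by
      rintro rfl
      apply hU.mult_ne_zero
      rw [← finrank_gen, Submodule.finrank_eq_zero, eq_bot_iff]
      intro x hx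
      rw [Submodule.mem_bot]
      refine h.nondeg x fun y => ?_
      obtain ⟨k, hk⟩ := (Module.End.mem_maxGenEigenspace F 0 x).1 hx
      rw [zero_smul, sub_zero] at hk
      have h5 : ∀ k : ℕ, ∀ x y, B ((F ^ k) x) ((F ^ k) y) = c ^ k * B x y := by
        intro k
        induction k with
        | zero => intro x y; simp
        | succ k ih =>
          intro x y
          rw [pow_succ', Module.End.mul_apply, Module.End.mul_apply, h.scale, ih, pow_succ']
          ring
      have h6 := h5 k x y
      rw [hk, map_zero, LinearMap.zero_apply] at h6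
      exact (mul_eq_zero.1 h6.symm).resolve_left (pow_ne_zero k h.ne_zero)
    set b := c / a with hbdef
    have hab : a * b = c := by rw [hbdef]; field_simp
    have hne : a ≠ b := by
      intro h4
      rw [← h4] at hab
      exact hac hab
    have hU' := hU.perp h ha0 hab
    have h1 := rank_sum_bound F hsplit hu hv hdet {a, b} (by
      intro x hx
      rw [Finset.mem_insert, Finset.mem_singleton] at hx
      rcases hx with rfl | rfl
      · exact hU.mult_ne_zero
      · exact hU'.mult_ne_zero) (fun a => 2 * mult F a - 2) (by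
      intro x hx
      rw [Finset.mem_insert, Finset.mem_singleton] at hx
      rcases hx with rfl | rfl
      · exact hb hU
      · exact hb hU')
    rw [Finset.sum_pair hne] at h1
    have h2 := mult_le hsplit h.scale h.nondeg h.ne_zero hab
    omega

/-- **Irreducibility.** -/
theorem simpleAt_of_small [IsAlgClosed K] (h : IsOps S F P B c)
    (hr : SuperRank S P r) {a : K} (hsm : SmallAt F c r a) : SimpleAt S F a := by
  have key : ∀ U : Submodule K V, U ≤ gen F a → (∀ s ∈ S, ∀ x ∈ U, s x ∈ U) →
      (∀ x ∈ U, P x ∈ U) → U = ⊥ ∨ U = gen F a := by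
    intro U h1 h3 h4
    by_contra hcon
    rw [not_or] at hcon
    have hU : IsSub S F P U a := ⟨h1, h3, h4, hcon.1, hcon.2⟩
    have hb := hU.bound h hr
    rcases hsm with h5 | h5 | ⟨h5, h6⟩
    · have h6 := Submodule.finrank_lt_finrank_of_lt (lt_of_le_of_ne h1 hcon.2)
      rw [finrank_gen] at h6
      exact hcon.1 (Submodule.finrank_eq_zero.1 (by omega))
    · omega
    · have := hb.2 h5
      omega
  -- `P` is a scalar
  have hP2 : ∀ x, P (P x) = x := fun x => LinearMap.congr_fun h.sq x
  have hP : ∃ e : K, ∀ x ∈ gen F a, P x = e • x := by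
    rcases key (gen F a ⊓ P.eigenspace 1) inf_le_left (eig_stable h.comm h.commP) (by
      rintro x ⟨hx1, hx2⟩
      have h3 : P x = (1 : K) • x := Module.End.mem_eigenspace_iff.1 hx2
      rw [h3, one_smul]
      exact ⟨hx1, hx2⟩) with h3 | h3
    · refine ⟨-1, fun x hx => ?_⟩
      have h4 : P x + x ∈ gen F a ⊓ P.eigenspace 1 := by
        refine ⟨(gen F a).add_mem (mapsTo h.parF a x hx) hx, Module.End.mem_eigenspace_iff.2 ?_⟩
        rw [map_add, hP2, one_smul, add_comm]
      rw [h3, Submodule.mem_bot] at h4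
      rw [neg_one_smul]
      exact eq_neg_of_add_eq_zero_left h4
    · refine ⟨1, fun x hx => ?_⟩
      rw [← h3] at hx
      exact Module.End.mem_eigenspace_iff.1 hx.2
  obtain ⟨e, he⟩ := hP
  intro U h3 h4
  exact key U h3 h4 fun x hx => by
    rw [he x (h3 hx)]
    exact U.smul_mem e hx

end Pool.Agent.X305.GP
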