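import Pool.Agent.X305.GP.Gap
import Pool.Agent.X305.GP.Defs
import Pool.Agent.X305.FM.Fin
import Pool.Agent.H447R3.NcB
import Pool.Agent.H914R2.PPair

/-!
# The correspondences commuting with Frobenius
-/

set_option autoImplicit false

open CategoryTheory AlgebraicGeometry

universe u v

namespace Pool.Agent.X305.GP

open Pool.Agent.H914 VarClass Obj WeilCohomology Pool.Agent.X305.HA Pool.Agent.X305.PI
  Pool.Agent.TH720.LB Pool.Agent.X305.TP Pool.Agent.X305.PE Pool.Agent.X305.TQ
  Pool.Agent.X305.FM Pool.Agent.H447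

variable {k : Type u} [Field k] {𝒱 : VarClass k} {ops : CycleOps 𝒱}
  {W : WeilCohomology.{u, v} ops} {X : 𝒱.Obj} {D : X.Cycles} {f : X ⟶ X} {q : ℕ}

lemma square_fst (X : 𝒱.Obj) (f : X ⟶ X) : square X f ≫ fst X X = fst X X ≫ f := Obj.lift_fst _ _
lemma square_snd (X : 𝒱.Obj) (f : X ⟶ X) : square X f ≫ snd X X = snd X X ≫ f := Obj.lift_snd _ _

lemma map_square_fst (a : W.H X) :
    W.map (square X f) (W.map (fst X X) a) = W.map (fst X X) (W.map f a) := by
  rw [← W.map_comp, square_fst, W.map_comp]

lemma map_square_snd (a : W.H X) :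
    W.map (square X f) (W.map (snd X X) a) = W.map (snd X X) (W.map f a) := by
  rw [← W.map_comp, square_snd, W.map_comp]

lemma map_swap_fst (a : W.H X) : W.map (swap X X) (W.map (fst X X) a) = W.map (snd X X) a := by
  rw [← W.map_comp, swap_fst]

lemma map_swap_snd (a : W.H X) : W.map (swap X X) (W.map (snd X X) a) = W.map (fst X X) a := by
  rw [← W.map_comp, swap_snd]

lemma square_swap (X : 𝒱.Obj) (f : X ⟶ X) :
    W.map (square X f) ∘ W.map (swap X X) = W.map (swap X X) ∘ W.map (square X f) := by
  funext c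
  rw [Function.comp_apply, Function.comp_apply]
  refine W.kunneth_induction (p := fun c => W.map (square X f) (W.map (swap X X) c) =
    W.map (swap X X) (W.map (square X f) c)) ?_ ?_ c
  · intro a b ha hb
    simp only [map_add, ha, hb]
  · intro i j a _ b _
    rw [map_mul (W.map (swap X X)), map_mul (W.map (square X f)), map_mul (W.map (square X f)),
      map_mul (W.map (swap X X)), map_square_fst, map_square_snd, map_swap_fst, map_swap_snd,
      map_swap_fst, map_swap_snd, map_square_fst, map_square_snd]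

section

variable (hq : 0 < q) (hf : TraceScales (W.map f) (W.tr X) (q ^ X.dim : ℕ))
include hq hf

omit hf in
lemma qn_ne : ((q ^ X.dim : ℕ) : W.K) ≠ 0 := by
  rw [Nat.cast_pow]
  exact pow_ne_zero _ (by exact_mod_cast hq.ne')

lemma pull_bijective : Function.Bijective (pull W X f) := by
  have hinj : Function.Injective (pull W X f) := by
    rw [← LinearMap.ker_eq_bot, LinearMap.ker_eq_bot']
    intro x hx
    apply W.nondeg
    intro b
    have h1 := hf (x * b)
    have h2 : W.map f x = 0 := hx
    rw [map_mul (W.map f), h2, zero_mul, map_zero] at h1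
    exact (mul_eq_zero.1 h1.symm).resolve_left (qn_ne hq)
  exact ⟨hinj, (LinearMap.injective_iff_surjective (f := pull W X f)).1 hinj⟩

omit hq in
lemma tr_square (c : W.H (X.prod X)) : W.tr (X.prod X) (W.map (square X f) c) =
    ((q ^ X.dim : ℕ) : W.K) * (((q ^ X.dim : ℕ) : W.K) * W.tr (X.prod X) c) := by
  refine W.kunneth_induction (p := fun c => W.tr (X.prod X) (W.map (square X f) c) =
    ((q ^ X.dim : ℕ) : W.K) * (((q ^ X.dim : ℕ) : W.K) * W.tr (X.prod X) c)) ?_ ?_ c
  · intro a b ha hb
    rw [map_add, map_add, map_add, ha, hb]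
    ring
  · intro i j a _ b _
    rw [map_mul (W.map (square X f)), map_square_fst, map_square_snd, W.tr_prod, W.tr_prod, hf, hf]
    ring

/-- The operator of the class `Φ c`. -/
lemma corr_square (c : W.H (X.prod X)) (x : W.H X) :
    W.corr (W.map (square X f) c) (W.map f x) =
      ((q ^ X.dim : ℕ) : W.K) • W.map f (W.corr c x) := by
  rw [← sub_eq_zero]
  apply W.nondeg
  intro b
  obtain ⟨y, rfl⟩ := (pull_bijective hq hf).2 b
  change W.tr X ((W.corr (W.map (square X f) c) (W.map f x) -
    ((q ^ X.dim : ℕ) : W.K) • W.map f (W.corr c x)) * W.map f y) = 0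
  rw [sub_mul, map_sub, smul_mul_assoc, map_smul, ← map_mul (W.map f), hf, corr_apply, W.tr_push,
    corr_apply, W.tr_push, ← map_square_fst, ← map_square_snd, ← map_mul (W.map (square X f)),
    ← map_mul (W.map (square X f)), tr_square hf, smul_eq_mul, sub_self]

/-- The classes multiplied by `q ^ n` are those which commute with `f^*`. -/
lemma scales_iff (c : W.H (X.prod X)) :
    Scales (W.map (square X f)) ((q ^ X.dim : ℕ) : W.K) c ↔
      ∀ x, W.corr c (W.map f x) = W.map f (W.corr c x) := by
  have hne := qn_ne (W := W) (X := X) hq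
  constructor
  · intro h x
    have h1 := corr_square hq hf c x
    have h2 : W.map (square X f) c = ((q ^ X.dim : ℕ) : W.K) • c := h
    rw [h2, corr_smul, LinearMap.smul_apply] at h1
    exact smul_right_injective _ hne h1
  · intro h
    have h1 : W.corr (W.map (square X f) c - ((q ^ X.dim : ℕ) : W.K) • c) = 0 := by
      ext y
      obtain ⟨x, rfl⟩ := (pull_bijective hq hf).2 y
      change W.corr (W.map (square X f) c - ((q ^ X.dim : ℕ) : W.K) • c) (W.map f x) = 0
      have h2 := corr_square hq hf c x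
      rw [← h x] at h2
      have h3 : W.corr (W.map (square X f) c - ((q ^ X.dim : ℕ) : W.K) • c) =
          W.corr (W.map (square X f) c) - ((q ^ X.dim : ℕ) : W.K) • W.corr c := by
        rw [eq_sub_iff_add_eq, ← corr_smul, ← corr_add, sub_add_cancel]
      rw [h3, LinearMap.sub_apply, h2, LinearMap.smul_apply, sub_self]
    exact sub_eq_zero.1 (corr_inj h1)

/-- the Frobenius cycles on the square -/
lemma frobCycle_iff (z : (X.prod X).Cycles) :
    IsFrobCycle W (X.prod X) (square X f) q X.dim z ↔ (X.prod X).IsCyc X.dim z ∧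
      Commute (W.corr (W.cl _ z)) (pull W X f) := by
  rw [IsFrobCycle, scales_iff hq hf]
  refine and_congr_right fun _ => ⟨fun h => ?_, fun h x => ?_⟩
  · ext x
    exact h x
  · exact LinearMap.congr_fun h.eq x

end

/-- the operators of the Frobenius cycles -/
def frobOps (W : WeilCohomology.{u, v} ops) (X : 𝒱.Obj) (f : X ⟶ X) (q : ℕ) :
    Set (Module.End W.K (W.H X)) :=
  {s | ∃ z, IsFrobCycle W (X.prod X) (square X f) q X.dim z ∧ W.corr (W.cl _ z) = s}

/-- the form `tr (x y)` -/
noncomputable def trForm (W : WeilCohomology.{u, v} ops) (X : 𝒱.Obj) :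
    W.H X →ₗ[W.K] W.H X →ₗ[W.K] W.K := (LinearMap.mul W.K (W.H X)).compr₂ (W.tr X)

lemma trForm_apply (x y : W.H X) : trForm W X x y = W.tr X (x * y) := rfl

lemma corr_hom {z : (X.prod X).Cycles} (hz : (X.prod X).IsCyc X.dim z) :
    IsHom (W.gr X) 0 (W.corr (W.cl _ z)) := by
  have := W.corr_isHom (W.cl_mem hz)
  simpa using this

lemma pull_hom : IsHom (W.gr X) 0 (pull W X f) := by
  intro i a ha
  rw [add_zero]
  rcases lt_or_ge i 0 with h | h
  · rw [grZ_of_neg h] at ha
    rw [(Submodule.mem_bot _).1 ha, map_zero]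
    exact Submodule.zero_mem _
  · lift i to ℕ using h
    rw [grZ_natCast] at ha ⊢
    exact W.map_mem f ha

lemma par_comm_of {T : Module.End W.K (W.H X)} (hT : IsHom (W.gr X) 0 T) :
    Commute T (par (W.isInternal X)) :=
  (IsHom.par_comm (d := 0) (W.isInternal X) (by simpa using hT)).symm

lemma par_apply_of_mem {i : ℕ} {x : W.H X} (hx : x ∈ W.gr X i) :
    par (W.isInternal X) x = (-1 : W.K) ^ i • x := by
  have h1 := LinearMap.congr_fun (par_mul_proj (W.isInternal X) i) x
  rw [Module.End.mul_apply, LinearMap.smul_apply, proj_same (W.isInternal X) hx] at h1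
  exact h1

lemma adj_par (x y : W.H X) : trForm W X (par (W.isInternal X) x) y =
    trForm W X x (par (W.isInternal X) y) := by
  rw [trForm_apply, trForm_apply]
  refine gr_induction (W.isInternal X) (p := fun x => W.tr X (par (W.isInternal X) x * y) =
    W.tr X (x * par (W.isInternal X) y)) ?_ ?_ x
  · intro i a ha
    refine gr_induction (W.isInternal X) (p := fun y => W.tr X (par (W.isInternal X) a * y) =
      W.tr X (a * par (W.isInternal X) y)) ?_ ?_ y
    · intro j b hb
      rw [par_apply_of_mem ha, par_apply_of_mem hb, smul_mul_assoc, mul_smul_comm, map_smul,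
        map_smul]
      by_cases hij : i + j = 2 * X.dim
      · congr 1
        rcases Nat.even_or_odd i with h | h
        · have h2 : Even j := by
            have : Even (i + j) := by rw [hij]; exact even_two_mul _
            exact (Nat.even_add.1 this).1 h
          rw [h.neg_one_pow, h2.neg_one_pow]
        · have h2 : Odd j := by
            have : Even (i + j) := by rw [hij]; exact even_two_mul _
            rw [← Nat.not_even_iff_odd] at h ⊢
            exact fun h3 => h ((Nat.even_add.1 this).2 h3)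
          rw [h.neg_one_pow, h2.neg_one_pow]
      · rw [W.tr_eq_zero (W.mul_mem ha hb) hij, smul_zero, smul_zero]
    · intro a' b' h1 h2
      rw [mul_add, map_add, h1, h2, map_add, mul_add, map_add]
  · intro a b h1 h2
    rw [map_add, add_mul, map_add, h1, h2, add_mul, map_add]

section

variable (hq : 0 < q) (hf : TraceScales (W.map f) (W.tr X) (q ^ X.dim : ℕ))
include hq hf

lemma frobOps_comm : ∀ s ∈ frobOps W X f q, Commute s (pull W X f) := by
  rintro _ ⟨z, hz, rfl⟩
  exact ((frobCycle_iff hq hf z).1 hz).2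

omit hq hf in
lemma frobCycle_swap {z : (X.prod X).Cycles}
    (hz : IsFrobCycle W (X.prod X) (square X f) q X.dim z) :
    IsFrobCycle W (X.prod X) (square X f) q X.dim (ops.pull (swap X X) z) := by
  refine ⟨ops.pull_mem _ hz.1, ?_⟩
  have h1 := congrFun (square_swap (W := W) X f) (W.cl _ z)
  have h2 : W.map (square X f) (W.cl _ z) = ((q ^ X.dim : ℕ) : W.K) • W.cl _ z := hz.2
  rw [Function.comp_apply, Function.comp_apply, h2, map_smul] at h1
  rw [W.cl_pull]
  exact h1

omit hq hf in
lemma swap_swap (c : W.H (X.prod X)) : W.map (swap X X) (W.map (swap X X) c) = c := by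
  refine W.kunneth_induction (p := fun c => W.map (swap X X) (W.map (swap X X) c) = c) ?_ ?_ c
  · intro a b ha hb
    rw [map_add, map_add, ha, hb]
  · intro i j a _ b _
    rw [map_mul (W.map (swap X X)), map_mul (W.map (swap X X)), map_swap_fst, map_swap_snd,
      map_swap_snd, map_swap_fst]

/-- The operators of the Frobenius cycles on the square. -/
lemma isOps : IsOps (frobOps W X f q) (pull W X f) (par (W.isInternal X)) (trForm W X)
    ((q ^ X.dim : ℕ) : W.K) where
  comm := frobOps_comm hq hf
  commP := by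
    rintro _ ⟨z, hz, rfl⟩
    exact par_comm_of (corr_hom hz.1)
  parF := (par_comm_of pull_hom).symm
  sq := par_mul_par _
  adj := by
    rintro _ ⟨z, hz, rfl⟩
    refine ⟨_, ⟨_, frobCycle_swap hz, rfl⟩, fun x y => ?_⟩
    rw [trForm_apply, trForm_apply, W.cl_pull,
      tr_corr_swap (W.map_mem (swap X X) (W.cl_mem hz.1)), swap_swap]
  adjP := adj_par
  scale := fun x y => by
    rw [trForm_apply, trForm_apply]
    change W.tr X (W.map f x * W.map f y) = _
    rw [← map_mul (W.map f), hf]
  nondeg := fun x h => W.nondeg x h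
  ne_zero := qn_ne hq

lemma one_mem_frobOps : (1 : Module.End W.K (W.H X)) ∈ frobOps W X f q := by
  obtain ⟨z, hz, h⟩ := exists_graph (W := W) (𝟙 X) 0
  rw [pow_zero] at h
  refine ⟨z, (frobCycle_iff hq hf z).2 ⟨hz, ?_⟩, h⟩
  rw [h]
  exact Commute.one_left _

lemma pull_mem_frobOps : pull W X f ∈ frobOps W X f q := by
  obtain ⟨z, hz, h⟩ := exists_graph (W := W) f 1
  rw [pow_one] at h
  refine ⟨z, (frobCycle_iff hq hf z).2 ⟨hz, ?_⟩, h⟩
  rw [h]
  exact Commute.refl _

lemma mul_mem_frobOps : ∀ s ∈ frobOps W X f q, ∀ t ∈ frobOps W X f q,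
    s * t ∈ frobOps W X f q := by
  rintro _ ⟨z, hz, rfl⟩ _ ⟨w, hw, rfl⟩
  have h1 : W.corr (W.cl _ (compCyc ops w z)) = W.corr (W.cl _ z) * W.corr (W.cl _ w) :=
    corr_compCyc W hz.1
  refine ⟨compCyc ops w z, (frobCycle_iff hq hf _).2 ⟨compCyc_mem hw.1 hz.1 (by omega), ?_⟩, h1⟩
  rw [h1]
  exact (((frobCycle_iff hq hf _).1 hz).2).mul_left (((frobCycle_iff hq hf _).1 hw).2)

omit hq hf in
/-- the intersection numbers as supertraces -/
lemma deg_eq {z w : (X.prod X).Cycles} (hz : (X.prod X).IsCyc X.dim z)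
    (hw : (X.prod X).IsCyc X.dim w) : ((X.prod X).V.degCycle (ops.mul z w) : W.K) =
      LinearMap.trace W.K (W.H X) (par (W.isInternal X) * W.corr (W.cl _ z) *
        W.corr (W.cl _ (ops.pull (swap X X) w))) := by
  rw [deg_eq_str (by omega) hz hw, mul_assoc]

omit hq hf in
lemma superRank {r : ℕ} (hr : InterRankAtLeast W (X.prod X) (square X f) q X.dim r) :
    SuperRank (frobOps W X f q) (par (W.isInternal X)) r := by
  obtain ⟨z, w, hzw, hdet⟩ := hr
  refine ⟨fun i => W.corr (W.cl _ (z i)), fun i => W.corr (W.cl _ (ops.pull (swap X X) (w i))),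
    fun i => ⟨⟨_, (hzw i).1, rfl⟩, ⟨_, frobCycle_swap (hzw i).2, rfl⟩⟩, ?_⟩
  have h1 : trMat (fun i => par (W.isInternal X) * W.corr (W.cl _ (z i)))
      (fun i => W.corr (W.cl _ (ops.pull (swap X X) (w i)))) =
      (Matrix.of fun i j => (X.prod X).V.degCycle (ops.mul (z i) (w j))).map
        (Rat.castHom W.K) := by
    ext i j
    rw [Matrix.map_apply, Matrix.of_apply, Rat.coe_castHom, deg_eq (hzw i).1.1 (hzw j).2.1]
    rfl
  rw [h1, ← RingHom.mapMatrix_apply, ← RingHom.map_det]
  exact (map_ne_zero _).2 hdet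

omit hq hf in
lemma interRank {r : ℕ} (hr : SuperRank (frobOps W X f q) (par (W.isInternal X)) r) :
    InterRankAtLeast W (X.prod X) (square X f) q X.dim r := by
  obtain ⟨u, v, huv, hdet⟩ := hr
  choose z hz hzu using fun i => (huv i).1
  choose w hw hwv using fun i => (huv i).2
  refine ⟨z, fun i => ops.pull (swap X X) (w i), fun i => ⟨hz i, frobCycle_swap (hw i)⟩, ?_⟩
  intro hcon
  apply hdet
  have h1 : trMat (fun i => par (W.isInternal X) * u i) v =
      (Matrix.of fun i j => (X.prod X).V.degCycle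
        (ops.mul (z i) (ops.pull (swap X X) (w j)))).map (Rat.castHom W.K) := by
    ext i j
    rw [Matrix.map_apply, Matrix.of_apply, Rat.coe_castHom,
      deg_eq (hz i).1 (ops.pull_mem _ (hw j).1), W.cl_pull, W.cl_pull, swap_swap, hzu, hwv]
    rfl
  rw [h1, ← RingHom.mapMatrix_apply, ← RingHom.map_det, hcon, map_zero]

end

end Pool.Agent.X305.GP
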