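import Pool.Agent.X305.FM.Glob

/-!
# Ranks of trace forms of operators with a common invariant subspace
-/

set_option autoImplicit false

namespace Pool.Agent.X305.GP

open Module Pool.Agent.X305.FM

lemma arith_gap {w m : ℕ} (hw : 0 < w) (hm : w < m) :
    w ^ 2 + (m - w) ^ 2 + 2 * m ≤ m ^ 2 + 2 := by
  obtain ⟨t, rfl⟩ := Nat.exists_eq_add_of_lt hm
  obtain ⟨s, rfl⟩ : ∃ s, w = s + 1 := ⟨w - 1, by omega⟩
  rw [show s + 1 + t + 1 - (s + 1) = t + 1 by omega]
  nlinarith [Nat.zero_le s, Nat.zero_le t, Nat.zero_le (s * t)]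

section Local

variable {K V : Type*} [Field K] [AddCommGroup V] [Module K V] [FiniteDimensional K V]

/-- **The local bound.** The trace form of operators with a common invariant subspace. -/
theorem rank_trMat_invariant (U : Submodule K V) {r : ℕ} (u v : Fin r → Module.End K V)
    (hu : ∀ i, ∀ x ∈ U, u i x ∈ U) (hv : ∀ i, ∀ x ∈ U, v i x ∈ U) :
    (trMat u v).rank ≤ finrank K U ^ 2 + (finrank K V - finrank K U) ^ 2 := by
  classical
  obtain ⟨p, hp⟩ := U.subtype.exists_leftInverse_of_injective
    (LinearMap.ker_eq_bot.2 (Submodule.injective_subtype U))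
  obtain ⟨s, hs⟩ := U.mkQ.exists_rightInverse_of_surjective
    (LinearMap.range_eq_top.2 (Submodule.mkQ_surjective U))
  have hmk : ∀ y, U.mkQ y = 0 ↔ y ∈ U := fun y => Submodule.Quotient.mk_eq_zero U
  have hp2 : ∀ x : U, p x = x := fun x => LinearMap.congr_fun hp x
  have hs2 : ∀ x : V ⧸ U, U.mkQ (s x) = x := fun x => LinearMap.congr_fun hs x
  let φ : Module.End K V →ₗ[K] ((U →ₗ[K] U) × ((V ⧸ U) →ₗ[K] (V ⧸ U))) :=
    LinearMap.prod
      ((LinearMap.llcomp K U V U p).comp (LinearMap.lcomp K V U.subtype))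
      ((LinearMap.llcomp K (V ⧸ U) V (V ⧸ U) U.mkQ).comp (LinearMap.lcomp K V s))
  have hφ1 : ∀ (b : Module.End K V) (x : U), (φ b).1 x = p (b x) := fun b x => rfl
  have hφ2 : ∀ (b : Module.End K V) (x : V ⧸ U), (φ b).2 x = U.mkQ (b (s x)) := fun b x => rfl
  have hspan : ∀ b ∈ Submodule.span K (Set.range u), ∀ x ∈ U, b x ∈ U := by
    intro b hb
    induction hb using Submodule.span_induction with
    | mem x hx =>
      obtain ⟨i, rfl⟩ := hx
      exact hu i
    | zero => exact fun x _ => U.zero_mem
    | add x y _ _ hx hy => exact fun z hz => U.add_mem (hx z hz) (hy z hz)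
    | smul a x _ hx => exact fun z hz => U.smul_mem a (hx z hz)
  have hkey : ∀ b ∈ Submodule.span K (Set.range u), φ b = 0 →
      ∀ j, LinearMap.trace K V (b * v j) = 0 := by
    intro b hb hb0 j
    have hbU := hspan b hb
    have h1 : ∀ x ∈ U, b x = 0 := by
      intro x hx
      have h2 : p (b x) = 0 := by
        have := congrArg Prod.fst hb0
        have := LinearMap.congr_fun this ⟨x, hx⟩
        simpa [hφ1] using this
      have h4 : (p (b x) : U) = ⟨b x, hbU x hx⟩ := hp2 ⟨b x, hbU x hx⟩
      rw [h2] at h4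
      exact (congrArg Subtype.val h4).symm
    have h2 : ∀ x, b x ∈ U := by
      intro x
      have h3 : x - s (U.mkQ x) ∈ U := by
        rw [← hmk, map_sub, hs2, sub_self]
      have h4 : U.mkQ (b (s (U.mkQ x))) = 0 := by
        have := congrArg Prod.snd hb0
        have := LinearMap.congr_fun this (U.mkQ x)
        rw [hφ2] at this
        exact this
      have h5 := h1 _ h3
      rw [map_sub, sub_eq_zero] at h5
      rw [h5]
      exact (hmk _).1 h4
    have h4 : (b * v j) ^ 2 = 0 := by
      ext x
      rw [pow_two, Module.End.mul_apply, LinearMap.zero_apply]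
      exact h1 _ (hv j _ (h2 _))
    exact (LinearMap.isNilpotent_trace_of_isNilpotent ⟨2, h4⟩).eq_zero
  have hrank := rank_trMat_le u v φ hkey
  rw [Module.finrank_prod, Module.finrank_linearMap, Module.finrank_linearMap] at hrank
  have hd := Submodule.finrank_quotient_add_finrank U
  have hd2 : finrank K (V ⧸ U) = finrank K V - finrank K U := by omega
  rw [hd2, ← pow_two, ← pow_two] at hrank
  exact hrank

/-- The bound for a subspace different from zero and from the whole space. -/
theorem rank_trMat_gap {U : Submodule K V} (h0 : U ≠ ⊥) (h1 : U ≠ ⊤) {r : ℕ}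
    (u v : Fin r → Module.End K V)
    (hu : ∀ i, ∀ x ∈ U, u i x ∈ U) (hv : ∀ i, ∀ x ∈ U, v i x ∈ U) :
    (trMat u v).rank + 2 * finrank K V ≤ finrank K V ^ 2 + 2 := by
  have h2 := rank_trMat_invariant U u v hu hv
  have h3 : 0 < finrank K U := by
    rw [Nat.pos_iff_ne_zero]
    intro h
    exact h0 (Submodule.finrank_eq_zero.1 h)
  have h4 : finrank K U < finrank K V := Submodule.finrank_lt h1
  have h5 := arith_gap h3 h4
  omega

end Local

section Global

variable {K V : Type*} [Field K] [AddCommGroup V] [Module K V] [FiniteDimensional K V]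

/-- the matrix of the traces on a generalised eigenspace -/
noncomputable def locMat {F : Module.End K V} {r : ℕ} {u v : Fin r → Module.End K V}
    (hu : ∀ i, Commute (u i) F) (hv : ∀ i, Commute (v i) F) (a : K) : Matrix (Fin r) (Fin r) K :=
  trMat (fun i => res (hu i) a) (fun i => res (hv i) a)

/-- **Summation over the eigenvalues.** -/
theorem rank_sum_bound (F : Module.End K V) (h : F.charpoly.Splits) {r : ℕ}
    {u v : Fin r → Module.End K V} (hu : ∀ i, Commute (u i) F) (hv : ∀ i, Commute (v i) F)
    (hdet : (trMat u v).det ≠ 0) (T : Finset K) (hTr : ∀ a ∈ T, mult F a ≠ 0) (e : K → ℕ)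
    (he : ∀ a ∈ T, (locMat hu hv a).rank + e a ≤ mult F a ^ 2) :
    r + ∑ a ∈ T, e a ≤ sumSq F := by
  classical
  have hTr : T ⊆ F.charpoly.roots.toFinset := by
    intro a ha
    rw [Multiset.mem_toFinset, Polynomial.mem_roots (LinearMap.charpoly_monic F).ne_zero]
    by_contra hcon
    exact hTr a ha (Polynomial.rootMultiplicity_eq_zero hcon)
  have hmat : trMat u v = ∑ a : {a : K // a ∈ F.charpoly.roots.toFinset},
      locMat hu hv (a : K) := by
    ext i j
    rw [Matrix.sum_apply]
    exact trace_mul F h (hu i) (hv j)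
  have hr : r = (trMat u v).rank := by
    rw [Matrix.rank_of_isUnit _ ((Matrix.isUnit_iff_isUnit_det _).2 (isUnit_iff_ne_zero.2 hdet)),
      Fintype.card_fin]
  have hsum := rank_sum_le Finset.univ fun a : {a : K // a ∈ F.charpoly.roots.toFinset} =>
      locMat hu hv (a : K)
  rw [← hmat, ← hr] at hsum
  have hloc : ∀ a : {a : K // a ∈ F.charpoly.roots.toFinset},
      (locMat hu hv (a : K)).rank + (if (a : K) ∈ T then e a else 0) ≤ mult F a ^ 2 := by
    intro a
    by_cases haT : (a : K) ∈ T
    · rw [if_pos haT]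
      exact he a haT
    · rw [if_neg haT, ← finrank_gen, add_zero]
      exact rank_trMat_le_sq _ _
  have hall := Finset.sum_le_sum fun a (_ : a ∈ (Finset.univ :
    Finset {a : K // a ∈ F.charpoly.roots.toFinset})) => hloc a
  rw [Finset.sum_add_distrib,
    Finset.sum_coe_sort F.charpoly.roots.toFinset fun a => if a ∈ T then e a else 0,
    Finset.sum_coe_sort F.charpoly.roots.toFinset fun a => mult F a ^ 2, ← sumSq_eq,
    ← Finset.sum_filter,
    Finset.filter_mem_eq_inter, Finset.inter_eq_right.2 hTr] at hall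
  omega

end Global

end Pool.Agent.X305.GP
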