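import Pool.Agent.X305.GP.Full
import Pool.Agent.X305.GP.Geo

/-!
# A gap theorem for the Tate conjecture
-/

set_option autoImplicit false

open CategoryTheory AlgebraicGeometry

universe u v

namespace Pool.Agent.X305.GP

open Pool.Agent.H914 VarClass Obj WeilCohomology Pool.Agent.X305.HA Pool.Agent.X305.PI
  Pool.Agent.TH720.LB Pool.Agent.X305.TP Pool.Agent.X305.PE Pool.Agent.X305.TQ
  Pool.Agent.X305.FM Pool.Agent.H447

variable {k : Type u} [Field k] {𝒱 : VarClass k} {ops : CycleOps 𝒱}
  {W : WeilCohomology.{u, v} ops} {X : 𝒱.Obj} {D : X.Cycles} {f : X ⟶ X} {q r : ℕ}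

section

variable [IsAlgClosed W.K] (hq : 0 < q) (hf : TraceScales (W.map f) (W.tr X) (q ^ X.dim : ℕ))
  (hs : ∀ a, SimpleAt (frobOps W X f q) (pull W X f) a)
include hq hf

/-- the rank is at most the sum of the squares -/
theorem rank_le (hr : InterRankAtLeast W (X.prod X) (square X f) q X.dim r) :
    r ≤ frobSquares W X f := by
  obtain ⟨u, v, huv, hdet⟩ := superRank hr
  exact rank_le_sumSq (pull W X f) (IsAlgClosed.splits _) _ v
    (fun i => commute_mul (isOps hq hf) (huv i).1) (fun i => frobOps_comm hq hf _ (huv i).2) hdet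

include hs

theorem semisimple_of_simple : Module.End.IsSemisimple (pull W X f) :=
  isSemisimple_of_nil (pull W X f) (IsAlgClosed.splits _)
    fun a => nil_of_simpleAt (hs a) (frobOps_comm hq hf)

lemma mem_span_frobOps {T : Module.End W.K (W.H X)} (hT : Commute T (pull W X f)) :
    T ∈ Submodule.span W.K (frobOps W X f q) :=
  mem_span_of_simpleAt (one_mem_frobOps hq hf) (mul_mem_frobOps hq hf) (pull_mem_frobOps hq hf)
    (frobOps_comm hq hf) hs hT

/-- The Tate conjecture for the square. -/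
theorem tate_square : TateFor W (X.prod X) (square X f) q X.dim := by
  intro γ _ hγ
  have h1 : Commute (W.corr γ) (pull W X f) := by
    have h2 := (scales_iff hq hf γ).1 hγ
    ext x
    exact h2 x
  have h2 := mem_span_frobOps hq hf hs h1
  have h3 : ∀ T ∈ Submodule.span W.K (frobOps W X f q), ∃ γ' ∈ Submodule.span W.K
      {c | ∃ z, IsFrobCycle W (X.prod X) (square X f) q X.dim z ∧ W.cl (X.prod X) z = c},
      W.corr γ' = T := by
    intro T hT
    refine Submodule.span_induction (p := fun T _ => ∃ γ' ∈ Submodule.span W.K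
      {c | ∃ z, IsFrobCycle W (X.prod X) (square X f) q X.dim z ∧ W.cl (X.prod X) z = c},
      W.corr γ' = T) ?_ ?_ ?_ ?_ hT
    · rintro _ ⟨z, hz, rfl⟩
      exact ⟨_, Submodule.subset_span ⟨z, hz, rfl⟩, rfl⟩
    · exact ⟨0, Submodule.zero_mem _, corr_zero W⟩
    · rintro _ _ _ _ ⟨c, hc, rfl⟩ ⟨d, hd, rfl⟩
      exact ⟨c + d, Submodule.add_mem _ hc hd, corr_add W _ _⟩
    · rintro a _ _ ⟨c, hc, rfl⟩
      exact ⟨a • c, Submodule.smul_mem _ _ hc, corr_smul W _ _⟩
  obtain ⟨γ', hγ', he⟩ := h3 _ h2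
  have h4 : W.corr (γ' - γ) = 0 := by
    rw [← sub_eq_zero.2 he, eq_sub_iff_add_eq, ← corr_add, sub_add_cancel]
  rw [← sub_eq_zero.1 (corr_inj h4)]
  exact hγ'

/-- Numerical and homological equivalence for the square. -/
theorem numEqHom_square : NumEqHomFor W (X.prod X) (square X f) q X.dim := by
  intro z hz hnum
  apply corr_inj
  refine eq_zero_of_traces (isOps hq hf) (one_mem_frobOps hq hf) (mul_mem_frobOps hq hf)
    (pull_mem_frobOps hq hf) hs (frobOps_comm hq hf _ ⟨z, hz, rfl⟩) ?_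
  rintro _ ⟨w, hw, rfl⟩
  have h1 := deg_eq (W := W) hz.1 (ops.pull_mem (swap X X) hw.1)
  rw [W.cl_pull, W.cl_pull, swap_swap, hnum _ _ (by rw [dim_prod])
    (ops.pull_mem (swap X X) hw.1), Rat.cast_zero] at h1
  exact h1.symm

theorem fullRank_square :
    InterRankAtLeast W (X.prod X) (square X f) q X.dim (frobSquares W X f) :=
  interRank (full_rank (isOps hq hf) (one_mem_frobOps hq hf) (mul_mem_frobOps hq hf)
    (pull_mem_frobOps hq hf) hs)

end

lemma cl_pow (D : X.Cycles) (j : ℕ) : W.cl X (divPow ops D j X.V.fundCycle) = W.cl X D ^ j := by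
  rw [cl_divPow', W.cl_fund, mul_one]

lemma pow_ne (hdeg : X.V.degCycle (divPow ops D X.dim X.V.fundCycle) ≠ 0) (hD : X.IsCyc 1 D)
    {j : ℕ} (hj : j ≤ X.dim) : W.cl X D ^ j ≠ 0 := by
  intro h
  have h1 : W.cl X D ^ X.dim = 0 := by
    rw [← Nat.sub_add_cancel hj, pow_add, h, mul_zero]
  have h2 : X.IsCyc X.dim (divPow ops D X.dim X.V.fundCycle) := by
    have := divPow_mem (ops := ops) hD X.dim X.V.fundCycle_mem
    rwa [zero_add] at this
  have h3 := W.tr_cl h2
  rw [cl_pow, h1, map_zero] at h3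
  exact hdeg (by exact_mod_cast h3.symm)

/-- **The Tate conjecture for one eigenvalue.** -/
theorem tate_of_simple (hq : 0 < q) (hf : IsFrobeniusFor W X D f q) (hD : X.IsCyc 1 D) {j : ℕ}
    (hξ : W.cl X D ^ j ≠ 0)
    (hs : SimpleAt (frobOps W X f q) (pull W X f) ((q ^ j : ℕ) : W.K)) :
    TateFor W X f q j := by
  set ξ := W.cl X D with hξdef
  have hF : W.map f (ξ ^ j) = ((q ^ j : ℕ) : W.K) • ξ ^ j := by
    have h0 : W.map f ξ = (q : W.K) • ξ := hf.map_div
    rw [map_pow (W.map f), h0, _root_.smul_pow, Nat.cast_pow]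
  have hgen : ∀ x, pull W X f x = ((q ^ j : ℕ) : W.K) • x →
      x ∈ gen (pull W X f) ((q ^ j : ℕ) : W.K) := by
    intro x hx
    rw [Module.End.mem_maxGenEigenspace]
    refine ⟨1, ?_⟩
    rw [pow_one, LinearMap.sub_apply, sub_eq_zero]
    exact hx
  have hcomm := frobOps_comm (W := W) (X := X) (f := f) hq hf.tr_map
  let ev : Module.End W.K (W.H X) →ₗ[W.K] W.H X := LinearMap.applyₗ (ξ ^ j)
  have hev : ∀ T, ev T = T (ξ ^ j) := fun T => rfl
  have hcommspan : ∀ T ∈ Submodule.span W.K (frobOps W X f q), Commute T (pull W X f) := by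
    intro T hT
    refine Submodule.span_induction (p := fun T _ => Commute T (pull W X f)) ?_ ?_ ?_ ?_ hT
    · exact hcomm
    · exact Commute.zero_left _
    · exact fun _ _ _ _ h1 h2 => h1.add_left h2
    · exact fun a _ _ h1 => h1.smul_left a
  have hmulspan : ∀ s ∈ frobOps W X f q, ∀ T ∈ Submodule.span W.K (frobOps W X f q),
      s * T ∈ Submodule.span W.K (frobOps W X f q) := by
    intro s hs T hT
    refine Submodule.span_induction (p := fun T _ => s * T ∈ Submodule.span W.K
      (frobOps W X f q)) ?_ ?_ ?_ ?_ hT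
    · exact fun t ht => Submodule.subset_span (mul_mem_frobOps hq hf.tr_map s hs t ht)
    · rw [mul_zero]
      exact Submodule.zero_mem _
    · intro T U _ _ h1 h2
      rw [mul_add]
      exact Submodule.add_mem _ h1 h2
    · intro a T _ h1
      rw [mul_smul_comm]
      exact Submodule.smul_mem _ _ h1
  intro x _ hx
  have hxU : x ∈ (Submodule.span W.K (frobOps W X f q)).map ev := by
    rcases hs ((Submodule.span W.K (frobOps W X f q)).map ev) (by
      rintro _ ⟨T, hT, rfl⟩
      apply hgen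
      rw [hev]
      have h1 := LinearMap.congr_fun (hcommspan T hT).eq (ξ ^ j)
      rw [Module.End.mul_apply, Module.End.mul_apply] at h1
      rw [← h1]
      change T (W.map f (ξ ^ j)) = _
      rw [hF, map_smul]) (by
      rintro s hs _ ⟨T, hT, rfl⟩
      exact ⟨s * T, hmulspan s hs T hT, rfl⟩) with h | h
    · exfalso
      have h1 : ξ ^ j ∈ (Submodule.span W.K (frobOps W X f q)).map ev :=
        ⟨1, Submodule.subset_span (one_mem_frobOps hq hf.tr_map), rfl⟩
      rw [h, Submodule.mem_bot] at h1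
      exact hξ h1
    · rw [h]
      exact hgen x hx
  obtain ⟨T, hT, rfl⟩ := hxU
  refine Submodule.span_induction (p := fun T _ => ev T ∈ Submodule.span W.K
    {c | ∃ z, IsFrobCycle W X f q j z ∧ W.cl X z = c}) ?_ ?_ ?_ ?_ hT
  · rintro _ ⟨z, hz, rfl⟩
    refine Submodule.subset_span ⟨corrCyc ops z (divPow ops D j X.V.fundCycle), ⟨?_, ?_⟩, ?_⟩
    · refine corrCyc_mem hz.1 ?_
      have := divPow_mem (ops := ops) hD j X.V.fundCycle_mem
      rwa [zero_add] at this
    · have h1 := LinearMap.congr_fun (hcomm _ ⟨z, hz, rfl⟩).eq (ξ ^ j)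
      rw [Module.End.mul_apply, Module.End.mul_apply] at h1
      have h2 : W.corr (W.cl _ z) (W.map f (ξ ^ j)) = W.map f (W.corr (W.cl _ z) (ξ ^ j)) := h1
      change W.map f _ = _
      rw [cl_corrCyc, cl_pow, ← h2, hF, map_smul]
    · rw [cl_corrCyc, cl_pow]
      rfl
  · rw [map_zero]
    exact Submodule.zero_mem _
  · intro T U _ _ h1 h2
    rw [map_add]
    exact Submodule.add_mem _ h1 h2
  · intro a T _ h1
    rw [map_smul]
    exact Submodule.smul_mem _ _ h1

/-- At most one missing class. -/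
lemma fewMissing_one (h : frobSquares W X f ≤ r + 1) : FewMissing W X f q r := by
  intro a
  rcases Nat.lt_or_ge 1 (frobMultOf W X f a) with h1 | h1
  · exact Or.inr (Or.inl (by omega))
  · exact Or.inl h1

end Pool.Agent.X305.GP
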