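import Pool.Agent.X305.GP.Lin
import Pool.Agent.X305.FM.Dual

/-!
# Algebras of operators commuting with `F` which act irreducibly on the generalised eigenspaces
-/

set_option autoImplicit false

namespace Pool.Agent.X305.GP

open Module Pool.Agent.X305.FM

variable {K V : Type*} [Field K] [AddCommGroup V] [Module K V] [FiniteDimensional K V]

/-- the operators in `S` act irreducibly on the generalised eigenspace of `F` for `a` -/
def SimpleAt (S : Set (Module.End K V)) (F : Module.End K V) (a : K) : Prop :=
  ∀ U : Submodule K V, U ≤ gen F a → (∀ s ∈ S, ∀ x ∈ U, s x ∈ U) → U = ⊥ ∨ U = gen F a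

variable {S : Set (Module.End K V)} {F : Module.End K V}

/-- the eigenspaces are stable -/
lemma eig_stable {φ : Module.End K V} {a c : K} (hcomm : ∀ s ∈ S, Commute s F)
    (hφ : ∀ s ∈ S, Commute s φ) : ∀ s ∈ S, ∀ x ∈ gen F a ⊓ φ.eigenspace c,
      s x ∈ gen F a ⊓ φ.eigenspace c := by
  rintro s hsS y ⟨hy1, hy2⟩
  refine ⟨mapsTo (hcomm s hsS) a y hy1, ?_⟩
  have h1 : φ y = c • y := Module.End.mem_eigenspace_iff.1 hy2
  have h2 := LinearMap.congr_fun (hφ s hsS).eq y
  rw [Module.End.mul_apply, Module.End.mul_apply, h1, map_smul] at h2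
  exact Module.End.mem_eigenspace_iff.2 h2.symm

/-- an operator commuting with an irreducible set of operators is a scalar -/
lemma apply_of_simpleAt [IsAlgClosed K] {φ : Module.End K V} {a : K}
    (hs : SimpleAt S F a) (hcomm : ∀ s ∈ S, Commute s F) (hφ : ∀ s ∈ S, Commute s φ)
    (hφm : ∀ x ∈ gen F a, φ x ∈ gen F a) : ∃ c : K, ∀ x ∈ gen F a, φ x = c • x := by
  rcases Nat.eq_zero_or_pos (finrank K (gen F a)) with h0 | h0
  · refine ⟨0, fun x hx => ?_⟩
    rw [Submodule.finrank_eq_zero.1 h0, Submodule.mem_bot] at hx
    rw [hx, map_zero, smul_zero]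
  have : Nontrivial (gen F a) := Module.finrank_pos_iff.1 h0
  obtain ⟨c, hc⟩ := Module.End.exists_eigenvalue (φ.restrict hφm)
  obtain ⟨x, hx⟩ := hc.exists_hasEigenvector
  refine ⟨c, ?_⟩
  rcases hs (gen F a ⊓ φ.eigenspace c) inf_le_left (eig_stable hcomm hφ) with h | h
  · exfalso
    have h1 : (x : V) ∈ gen F a ⊓ φ.eigenspace c :=
      ⟨x.2, Module.End.mem_eigenspace_iff.2
        (congrArg Subtype.val (Module.End.mem_eigenspace_iff.1 hx.1))⟩
    rw [h, Submodule.mem_bot] at h1
    exact hx.2 (Subtype.ext h1)
  · intro y hy
    have h1 : y ∈ gen F a ⊓ φ.eigenspace c := by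
      rw [h]
      exact hy
    exact Module.End.mem_eigenspace_iff.1 h1.2

/-- `F` is the scalar `a` on the generalised eigenspace. -/
lemma nil_of_simpleAt {a : K} (hs : SimpleAt S F a) (hcomm : ∀ s ∈ S, Commute s F) :
    nil F a = 0 := by
  rcases hs (gen F a ⊓ F.eigenspace a) inf_le_left (eig_stable hcomm hcomm) with h | h
  · -- the nilpotent part has a kernel
    have hinj : Function.Injective (nil F a) := by
      rw [← LinearMap.ker_eq_bot, LinearMap.ker_eq_bot']
      intro x hx
      have h1 : (x : V) ∈ gen F a ⊓ F.eigenspace a := by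
        refine ⟨x.2, Module.End.mem_eigenspace_iff.2 ?_⟩
        rw [← sub_eq_zero]
        exact congrArg Subtype.val hx
      rw [h, Submodule.mem_bot] at h1
      exact Subtype.ext h1
    obtain ⟨n, hn⟩ := nil_isNilpotent F a
    have h2 : Function.Injective (nil F a ^ n : Module.End K (gen F a)) := by
      clear hn
      induction n with
      | zero => rw [pow_zero]; exact fun _ _ h => h
      | succ n ih => rw [pow_succ]; exact ih.comp hinj
    ext x
    have h3 : x = 0 := h2 (by rw [hn, LinearMap.zero_apply, LinearMap.zero_apply])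
    rw [h3, map_zero, map_zero]
  · ext x
    have h1 : (x : V) ∈ gen F a ⊓ F.eigenspace a := by
      rw [h]
      exact x.2
    rw [nil_apply, LinearMap.zero_apply, ZeroMemClass.coe_zero, sub_eq_zero]
    exact Module.End.mem_eigenspace_iff.1 h1.2

omit [FiniteDimensional K V] in
/-- the span of a set closed under multiplication -/
lemma mem_adjoin_iff (h1 : 1 ∈ S) (hmul : ∀ s ∈ S, ∀ t ∈ S, s * t ∈ S) (T : Module.End K V) :
    T ∈ Algebra.adjoin K S ↔ T ∈ Submodule.span K S := by
  let M : Submonoid (Module.End K V) :=
    { carrier := S, one_mem' := h1, mul_mem' := fun ha hb => hmul _ ha _ hb }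
  have h : Submonoid.closure S = M := Submonoid.closure_eq M
  rw [← Subalgebra.mem_toSubmodule, Algebra.adjoin_eq_span, h]
  rfl

/-- **Density.** The operators commuting with `F` are linear combinations of the operators in `S`, if
these act irreducibly on all generalised eigenspaces of `F`. -/
theorem mem_span_of_simpleAt [IsAlgClosed K] (h1 : 1 ∈ S)
    (hmul : ∀ s ∈ S, ∀ t ∈ S, s * t ∈ S) (hF : F ∈ S) (hcomm : ∀ s ∈ S, Commute s F)
    (hs : ∀ a, SimpleAt S F a) {T : Module.End K V} (hT : Commute T F) :
    T ∈ Submodule.span K S := by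
  classical
  rw [← mem_adjoin_iff h1 hmul]
  set A := Algebra.adjoin K S with hA
  have hSA : S ⊆ A := Algebra.subset_adjoin
  -- the generalised eigenspaces as submodules
  have hAcomm : ∀ s ∈ A, Commute s F := by
    intro s hsA
    induction hsA using Algebra.adjoin_induction with
    | mem x hx => exact hcomm x hx
    | algebraMap r => exact Algebra.commutes r F
    | add x y _ _ hx hy => exact hx.add_left hy
    | mul x y _ _ hx hy => exact hx.mul_left hy
  let G : K → Submodule A V := fun a =>
    { carrier := gen F a
      add_mem' := fun hx hy => (gen F a).add_mem hx hy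
      zero_mem' := (gen F a).zero_mem
      smul_mem' := fun s x hx => mapsTo (hAcomm s s.2) a x hx }
  have hG : ∀ a x, x ∈ G a ↔ x ∈ gen F a := fun a x => Iff.rfl
  have hsplit : F.charpoly.Splits := IsAlgClosed.splits _
  have htop := (isInternal F hsplit).submodule_iSup_eq_top
  have hss : ∀ a : {a : K // a ∈ F.charpoly.roots.toFinset}, IsSemisimpleModule A (G a) := by
    intro a
    have hsim : IsSimpleModule A (G a) := by
      rw [isSimpleModule_iff_isAtom]
      have hroot : (a : K) ∈ F.charpoly.roots := Multiset.mem_toFinset.1 a.2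
      rw [Polynomial.mem_roots (LinearMap.charpoly_monic F).ne_zero] at hroot
      refine ⟨?_, ?_⟩
      · intro hbot
        have h2 : gen F (a : K) = ⊥ := by
          rw [eq_bot_iff]
          intro x hx
          have : x ∈ G a := hx
          rw [hbot, Submodule.mem_bot] at this
          rwa [Submodule.mem_bot]
        have h3 := finrank_gen F (a : K)
        rw [h2, finrank_bot] at h3
        have h4 := (Polynomial.rootMultiplicity_pos (LinearMap.charpoly_monic F).ne_zero).2 hroot
        unfold mult at h3
        omega
      · intro U hU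
        let U' : Submodule K V := U.restrictScalars K
        rcases hs a U' (fun x hx => (hU.le hx : x ∈ G a)) (fun s hsS x hx =>
          U.smul_mem (⟨s, hSA hsS⟩ : A) hx) with h | h
        · rw [eq_bot_iff]
          intro x hx
          have h2 : x ∈ U' := hx
          rw [h, Submodule.mem_bot] at h2
          rwa [Submodule.mem_bot]
        · exfalso
          apply hU.not_ge
          intro x hx
          have h2 : x ∈ U' := by
            rw [h]
            exact hx
          exact h2
    infer_instance
  have : IsSemisimpleModule A V := by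
    refine isSemisimpleModule_of_isSemisimpleModule_submodule' hss ?_
    rw [eq_top_iff]
    intro x _
    have hx : x ∈ (⨆ a : {a : K // a ∈ F.charpoly.roots.toFinset}, gen F a) := by
      rw [htop]
      exact Submodule.mem_top
    induction hx using Submodule.iSup_induction' with
    | mem a y hy =>
      exact Submodule.mem_iSup_of_mem (p := fun a : {a : K // a ∈ F.charpoly.roots.toFinset} =>
        G a) a hy
    | zero => exact Submodule.zero_mem _
    | add y z _ _ hy hz => exact Submodule.add_mem _ (hy trivial) (hz trivial)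
  -- `T` commutes with the endomorphisms of the module
  have hTE : ∀ (φ : Module.End A V) (x : V), T (φ x) = φ (T x) := by
    intro φ x
    have hx : x ∈ (⨆ a : {a : K // a ∈ F.charpoly.roots.toFinset}, gen F a) := by
      rw [htop]
      exact Submodule.mem_top
    let φ' : Module.End K V := φ.restrictScalars K
    have hφ' : ∀ x, φ' x = φ x := fun x => rfl
    have hφS : ∀ s ∈ S, Commute s φ' := by
      intro s hsS
      ext y
      exact (φ.map_smul (⟨s, hSA hsS⟩ : A) y).symm
    induction hx using Submodule.iSup_induction' with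
    | mem a y hy =>
      obtain ⟨c, hc⟩ := apply_of_simpleAt (φ := φ') (hs a) hcomm hφS
        (fun y hy => mapsTo (hφS F hF).symm (a : K) y hy)
      rw [← hφ', ← hφ', hc y hy, hc (T y) (mapsTo hT (a : K) y hy), map_smul]
    | zero => rw [map_zero, map_zero, map_zero]
    | add y z _ _ hy hz => rw [map_add, map_add, map_add, map_add, hy, hz]
  let T' : Module.End (Module.End A V) V :=
    { toFun := T
      map_add' := map_add T
      map_smul' := hTE }
  obtain ⟨s, hsp⟩ : ∃ s : Finset V, Submodule.span K (s : Set V) = ⊤ :=
    (Module.Finite.iff_fg (N := (⊤ : Submodule K V))).1 inferInstance |>.elim fun s hs => ⟨s, hs⟩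
  obtain ⟨t, ht⟩ := jacobson_density T' s
  have hTt : T = t := by
    refine LinearMap.ext_on hsp fun x hx => ?_
    exact ht x hx
  rw [hTt]
  exact t.2

end Pool.Agent.X305.GP
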